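import Pool.Agent.H95.NV.Targets1

/-!
# Row FNV of the board `nva_modules`: the inverse of an ideal
-/

set_option autoImplicit false

open NumberField
open scoped nonZeroDivisors

namespace Pool.Agent.H5.NV

open Pool.Agent.H95.NV

section Main

variable {k : Type} [Field k] [NumberField k] {f : Ideal (𝓞 k)}

omit [NumberField k] in
theorem fi_add {q q' : k} (hq : q ∈ fi f) (hq' : q' ∈ fi f) : q + q' ∈ fi f := by
  intro a ha
  obtain ⟨t, ht⟩ := hq a ha
  obtain ⟨t', ht'⟩ := hq' a ha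
  refine ⟨t + t', ?_⟩
  rw [add_mul, ← ht, ← ht']
  rfl

omit [NumberField k] in
theorem fi_mul {q : k} (c : 𝓞 k) (hq : q ∈ fi f) : (c : k) * q ∈ fi f := by
  intro a ha
  obtain ⟨t, ht⟩ := hq a ha
  refine ⟨c * t, ?_⟩
  rw [mul_assoc, ← ht]
  rfl

omit [NumberField k] in
theorem fi_one : (1 : k) ∈ fi f := fun a _ => ⟨a, (one_mul _).symm⟩

theorem mem_fi_of_inv (hf : f ≠ ⊥) {q : k}
    (hq : q ∈ ((f : FractionalIdeal (𝓞 k)⁰ k)⁻¹ : FractionalIdeal (𝓞 k)⁰ k)) : q ∈ fi f := by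
  have hI : (f : FractionalIdeal (𝓞 k)⁰ k) ≠ 0 := FractionalIdeal.coeIdeal_ne_zero.2 hf
  intro a ha
  obtain ⟨t, ht⟩ := (FractionalIdeal.mem_one_iff (𝓞 k)⁰).1
    ((FractionalIdeal.mem_inv_iff hI).1 hq (a : k) ((FractionalIdeal.mem_coeIdeal (𝓞 k)⁰).2
      ⟨a, ha, rfl⟩))
  exact ⟨t, ht⟩

/-- one is a finite sum of products -/
theorem exists_finsupp (hf : f ≠ ⊥) : ∃ g : k →₀ 𝓞 k, (∀ q, g q ≠ 0 → q ∈ fi f) ∧
    (∀ q, g q ∈ f) ∧ g.sum (fun q a => (a : k) * q) = 1 := by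
  classical
  have hI : (f : FractionalIdeal (𝓞 k)⁰ k) ≠ 0 := FractionalIdeal.coeIdeal_ne_zero.2 hf
  have h1 : (1 : k) ∈ (((f : FractionalIdeal (𝓞 k)⁰ k) * (f : FractionalIdeal (𝓞 k)⁰ k)⁻¹ :
      FractionalIdeal (𝓞 k)⁰ k) : Submodule (𝓞 k) k) := by
    rw [mul_inv_cancel₀ hI]
    exact FractionalIdeal.one_mem_one (𝓞 k)⁰
  rw [FractionalIdeal.coe_mul] at h1
  refine Submodule.mul_induction_on h1 ?_ ?_
  · intro a ha q hq
    obtain ⟨a', ha', rfl⟩ := (FractionalIdeal.mem_coeIdeal (𝓞 k)⁰).1 ha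
    refine ⟨Finsupp.single q a', ?_, ?_, ?_⟩
    · intro q' hq'
      have : q' = q := by
        by_contra h
        exact hq' (Finsupp.single_eq_of_ne h)
      rw [this]
      exact mem_fi_of_inv hf hq
    · intro q'
      by_cases h : q' = q
      · rw [h, Finsupp.single_eq_same]
        exact ha'
      · rw [Finsupp.single_eq_of_ne h]
        exact Ideal.zero_mem _
    · rw [Finsupp.sum_single_index]
      have e : ((0 : 𝓞 k) : k) = 0 := map_zero (algebraMap (𝓞 k) k)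
      rw [e, zero_mul]
  · rintro x y ⟨g, h1, h2, h3⟩ ⟨g', h1', h2', h3'⟩
    refine ⟨g + g', ?_, ?_, ?_⟩
    · intro q hq
      by_cases h : g q = 0
      · refine h1' q fun h' => hq ?_
        rw [Finsupp.add_apply, h, h', add_zero]
      · exact h1 q h
    · intro q
      rw [Finsupp.add_apply]
      exact Ideal.add_mem _ (h2 q) (h2' q)
    · rw [Finsupp.sum_add_index', h3, h3']
      · intro q
        simp
      · intro q a b
        rw [← add_mul]
        rfl

end Main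

/-- (FIN) the inverse of an ideal. -/
theorem pf_FNV : T_FNV := by
  classical
  intro k _ _ f hf
  obtain ⟨g, hg1, hg2, hg3⟩ := exists_finsupp (k := k) hf
  have hsum : ∑ x ∈ g.support.image (fun q => (g q, q)), (x.1 : k) * x.2 = 1 := by
    rw [Finset.sum_image]
    · exact hg3
    · intro q _ q' _ h
      exact (Prod.mk.inj h).2
  refine ⟨⟨g.support.image (fun q => (g q, q)), ?_, hsum⟩, fun q hq q' hq' => fi_add hq hq',
    fun c q hq => fi_mul c hq, ⟨1, fi_one, one_ne_zero⟩, fi_one, fun A x => ⟨?_, ?_⟩⟩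
  · intro x hx
    obtain ⟨q, hq, rfl⟩ := Finset.mem_image.1 hx
    exact ⟨hg2 q, hg1 q (Finsupp.mem_support_iff.1 hq)⟩
  · intro h
    choose! t ht1 ht2 using h
    refine ⟨∑ q ∈ g.support, t q * g q, ?_, ?_⟩
    · refine Ideal.sum_mem _ fun q hq => ?_
      exact Ideal.mul_mem_mul (ht1 q (hg1 q (Finsupp.mem_support_iff.1 hq))) (hg2 q)
    · have e : ((∑ q ∈ g.support, t q * g q : 𝓞 k) : k) =
          ∑ q ∈ g.support, (t q : k) * (g q : k) := by
        refine (map_sum (algebraMap (𝓞 k) k) (fun q => t q * g q) g.support).trans ?_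
        exact Finset.sum_congr rfl fun q _ => map_mul (algebraMap (𝓞 k) k) _ _
      rw [e]
      have e2 : ∀ q ∈ g.support, (t q : k) * (g q : k) = (g q : k) * q * x := by
        intro q hq
        rw [ht2 q (hg1 q (Finsupp.mem_support_iff.1 hq))]
        ring
      rw [Finset.sum_congr rfl e2, ← Finset.sum_mul]
      have : ∑ q ∈ g.support, (g q : k) * q = 1 := hg3
      rw [this, one_mul]
  · rintro ⟨t, ht, rfl⟩ q hq
    refine Submodule.mul_induction_on ht ?_ ?_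
    · intro a ha b hb
      obtain ⟨c, hc⟩ := hq b hb
      refine ⟨a * c, Ideal.mul_mem_right _ _ ha, ?_⟩
      have e1 : ((a * c : 𝓞 k) : k) = (a : k) * (c : k) := map_mul (algebraMap (𝓞 k) k) _ _
      have e2 : ((a * b : 𝓞 k) : k) = (a : k) * (b : k) := map_mul (algebraMap (𝓞 k) k) _ _
      rw [e1, e2, hc]
      ring
    · rintro x y ⟨t, ht, h⟩ ⟨t', ht', h'⟩
      refine ⟨t + t', Ideal.add_mem _ ht ht', ?_⟩
      have e1 : ((t + t' : 𝓞 k) : k) = (t : k) + (t' : k) :=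
        map_add (algebraMap (𝓞 k) k) _ _
      have e2 : ((x + y : 𝓞 k) : k) = (x : k) + (y : k) := map_add (algebraMap (𝓞 k) k) _ _
      rw [e1, e2, h, h']
      ring

end Pool.Agent.H5.NV
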